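import Pool.Agent.HIP.Stmts
import Pool.Agent.Helper35_HIK.Hic

/-! HIP, row HCI: edit of `hic` with the power saving `1/4`. -/

set_option autoImplicit false

namespace Pool.Agent.HIP.H28

open Polynomial NumberField Matrix Pool.Agent.MTL Pool.Agent.MTL.H34 Pool.Agent.Helper78_MT
  Pool.Agent.HIK Pool.Agent.HIP

theorem hci (exi : ExiStmt) (hiz : HizStmt) (pzc : PzcStmt) : HciStmt := by
  classical
  intro K _ _ N hNn hNo
  have := hNn
  have hfin : Finite (GT ⧸ N) := Subgroup.quotient_finite_of_isOpen N hNo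
  have hfe := Pool.Agent.HIK.H35.finite_emb K
  have hcl : ∀ D' : Subgroup (GT ⧸ N),
      IsClosed ((D'.comap (QuotientGroup.mk' N) : Subgroup GT) : Set GT) := by
    intro D'
    refine Subgroup.isClosed_of_isOpen _ (Subgroup.isOpen_mono (H₁ := N) ?_ hNo)
    intro σ hσ
    rw [Subgroup.mem_comap, QuotientGroup.mk'_apply, (QuotientGroup.eq_one_iff σ).2 hσ]
    exact D'.one_mem
  choose x g hadm hgx hfix using
    fun D : {p : (K →+* Om) × Subgroup (GT ⧸ N) //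
      ¬ Gph p.1 ≤ p.2.comap (QuotientGroup.mk' N)} => exi K D.1.1 _ (hcl D.1.2) D.2
  refine ⟨⋃ D, {a : 𝓞 K | ∃ y : 𝓞 K, evalEval a y (g D) = 0},
    (pzc K (1 / 4)).2.1 _ _ fun D => hiz K _ (hadm D), ?_⟩
  intro a ha ψ π hπ
  obtain ⟨φ, hφ⟩ := cstA K ψ π
  refine ⟨φ, hφ, fun γ hγ => ?_⟩
  set D' := (decG π ⊓ Gph φ).map (QuotientGroup.mk' N) with hD'
  by_cases htop : Gph φ ≤ D'.comap (QuotientGroup.mk' N)
  · obtain ⟨σ, hσ, hσγ⟩ := htop hγ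
    refine ⟨σ, hσ.1, hσ.2, ?_⟩
    rw [QuotientGroup.mk'_apply, QuotientGroup.mk'_apply] at hσγ
    exact QuotientGroup.eq.1 hσγ
  · exfalso
    apply ha
    rw [Set.mem_iUnion]
    refine ⟨⟨(φ, D'), htop⟩, ?_⟩
    refine resA K ψ a π hπ φ hφ (x ⟨(φ, D'), htop⟩) (g ⟨(φ, D'), htop⟩)
      (hadm ⟨(φ, D'), htop⟩).monic (hgx ⟨(φ, D'), htop⟩) fun σ hσ hσφ => ?_
    refine hfix ⟨(φ, D'), htop⟩ σ ?_ hσφ
    rw [Subgroup.mem_comap]
    exact Subgroup.mem_map_of_mem _ ⟨hσ, hσφ⟩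

end Pool.Agent.HIP.H28
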